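import Pool.Agent.KD.Basic

/-!
# No permutation model with a countably complete filter has `K_D` exactly for the templates with `(*)_D`

For every group `G` and every normal filter `F` of subgroups of `G` closed under countable intersections: either
`K_D` fails in the permutation model for the directed cycle `D` of some prime length (which satisfies `(*)_D`), or `F`
has a least element, the axiom of choice and all `K_D` hold in the model, in particular for the complete graph on three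
vertices (which does not satisfy `(*)_D`).

Proof: let `H_q ∈ F` support a colouring by `ℤ / q` of a large invariant digraph, for every prime `q`, and let `h` be in
all the `H_q` and not in some `K_0 ∈ F`.  The intersection `K_1` of all `h ^ m K_0 h ^ (- m)` is in `F` and is
normalized by `h`.  The right translation by `h` is a permutation of `G / K_1` all of whose cycles have one length, not
`1`, divisible by some prime `q` (or infinite), so this digraph can be coloured; but `h` maps the coset `K_1` to its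
successor and preserves the colouring.
-/

set_option autoImplicit false

namespace Pool.Agent.Results.MP_8b375f_lc.CompleteModels

open Pool.Agent.KD

universe u

/-- The directed cycle of length `q`: the vertices are the residues modulo `q`, the edges are the pairs `(x, x + 1)`. -/
def cyc (q : ℕ) : ∀ i : Unit, Set (Fin ((fun _ : Unit => 2) i) → ZMod q) := fun _ => {t | t 1 = t 0 + 1}

/-- The complete graph on three vertices. -/
def K3 : ∀ i : Unit, Set (Fin ((fun _ : Unit => 2) i) → Fin 3) := fun _ => {t | t 0 ≠ t 1}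

theorem star_cyc {q : ℕ} (hq : q.Prime) : Star (cyc q) := by
  intro p hp hpq
  have hqF : Fact q.Prime := ⟨hq⟩
  rw [Nat.card_zmod] at hpq
  have hp0 : (p : ZMod q) ≠ 0 := by
    intro h
    rw [ZMod.natCast_eq_zero_iff] at h
    rcases (Nat.dvd_prime hp).1 h with h1 | h1
    · exact hq.one_lt.ne' h1
    · omega
  refine ⟨fun x => (∑ j, x j) * (p : ZMod q)⁻¹, ?_, ?_⟩
  · intro i t ht
    show (∑ j, t j 1) * (p : ZMod q)⁻¹ = (∑ j, t j 0) * (p : ZMod q)⁻¹ + 1
    have e : ∑ j, t j 1 = ∑ j, t j 0 + p := by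
      have h1 : ∀ j, t j 1 = t j 0 + 1 := fun j => ht j
      rw [Finset.sum_congr rfl fun j _ => h1 j, Finset.sum_add_distrib]
      simp
    rw [e, add_mul, mul_inv_cancel₀ hp0]
  · intro x
    show (∑ j, x (finRotate p j)) * (p : ZMod q)⁻¹ = (∑ j, x j) * (p : ZMod q)⁻¹
    rw [Equiv.sum_comp (finRotate p) x]

theorem not_star_K3 : ¬ Star K3 := by
  intro h
  obtain ⟨φ, h1, h2⟩ := h 5 (by norm_num) (by simp)
  obtain ⟨x, hx⟩ : ∃ x : Fin 5 → Fin 3, x = ![0, 1, 0, 1, 2] := ⟨_, rfl⟩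
  have h3 := h1 () (fun j => ![x j, x (finRotate 5 j)]) (fun j => by
    show x j ≠ x (finRotate 5 j)
    rw [hx]
    revert j
    decide)
  apply h3
  show φ (fun j => x j) = φ (fun j => x (finRotate 5 j))
  exact (h2 x).symm

/-- A colouring of the cosets of `K` in which the right translation by `h` adds `1`. -/
theorem exists_coloring {G : Type u} [Group G] (K : Subgroup G) (h : G) (hh : h ∈ Subgroup.normalizer (K : Set G)) (q : ℕ)
    (hq : ∀ m : ℤ, h ^ m ∈ K → (q : ℤ) ∣ m) :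
    ∃ c : G → ZMod q, (∀ g, ∀ k ∈ K, c (g * k) = c g) ∧ ∀ g, c (g * h) = c g + 1 := by
  have hz : ∀ (m : ℤ) (x : G), x ∈ K → (h ^ m)⁻¹ * x * h ^ m ∈ K := by
    intro m x hx
    have h1 : (h ^ m)⁻¹ ∈ Subgroup.normalizer (K : Set G) := inv_mem (Subgroup.zpow_mem _ hh m)
    have h2 := (Subgroup.mem_normalizer_iff.1 h1 x).1 hx
    rwa [inv_inv] at h2
  let s : Setoid G :=
    { r := fun x y => ∃ m : ℤ, ∃ k ∈ K, y = x * h ^ m * k
      iseqv :=
        { refl := fun x => ⟨0, 1, K.one_mem, by simp⟩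
          symm := by
            rintro x y ⟨m, k, hk, rfl⟩
            refine ⟨-m, h ^ m * k⁻¹ * (h ^ m)⁻¹, ?_, by group⟩
            have := hz (-m) k⁻¹ (K.inv_mem hk)
            rwa [zpow_neg, inv_inv] at this
          trans := by
            rintro x y z ⟨m, k, hk, rfl⟩ ⟨m', k', hk', rfl⟩
            refine ⟨m + m', (h ^ m')⁻¹ * k * h ^ m' * k', K.mul_mem (hz m' k hk) hk', ?_⟩
            rw [zpow_add]
            group } }
  have hex : ∀ g : G, ∃ m : ℤ, ∃ k ∈ K, g = Quotient.out (Quotient.mk s g) * h ^ m * k := fun g =>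
    Quotient.mk_out g
  choose m k hk hm using hex
  have key : ∀ x y : G, ∀ e : ℤ, ∀ k' ∈ K, y = x * h ^ e * k' → ((m y : ℤ) : ZMod q) = (m x : ZMod q) + (e : ZMod q) := by
    intro x y e k' hk' hy
    have hc : Quotient.mk s x = Quotient.mk s y := Quotient.sound ⟨e, k', hk', hy⟩
    have h1 := hm y
    have h2 := hm x
    rw [← hc] at h1
    generalize Quotient.out (Quotient.mk s x) = r at h1 h2
    have h3 : h ^ (m y - (m x + e)) = (h ^ e)⁻¹ * k x * h ^ e * (k' * (k y)⁻¹) := by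
      have h4 : r * h ^ (m y) * k y = r * h ^ (m x) * k x * h ^ e * k' := by
        rw [← h1, ← h2]
        exact hy
      have h5 : h ^ (m y) = h ^ (m x) * k x * h ^ e * k' * (k y)⁻¹ := by
        have h6 : r * h ^ (m y) = r * (h ^ (m x) * k x * h ^ e * k' * (k y)⁻¹) := by
          rw [← mul_inv_eq_iff_eq_mul.2 h4.symm]
          group
        exact mul_left_cancel h6
      have h7 : m y - (m x + e) = -(e) + (-(m x)) + m y := by ring
      rw [h7, zpow_add, zpow_add, h5]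
      group
    have h4 := hq _ (by
      rw [h3]
      exact K.mul_mem (hz e _ (hk x)) (K.mul_mem hk' (K.inv_mem (hk y))))
    have h5 := (ZMod.intCast_zmod_eq_zero_iff_dvd _ q).2 h4
    push_cast at h5
    linear_combination h5
  refine ⟨fun g => (m g : ZMod q), fun g k' hk' => ?_, fun g => ?_⟩
  · have := key g (g * k') 0 k' hk' (by simp)
    simpa using this
  · have := key g (g * h) 1 1 K.one_mem (by simp)
    simpa using this

/-- The main step. -/
theorem exists_least {G : Type u} [Group G] (F : Set (Subgroup G)) (hne : F.Nonempty)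
    (hup : ∀ H ∈ F, ∀ L : Subgroup G, H ≤ L → L ∈ F)
    (hconj : ∀ H ∈ F, ∀ g : G, H.map (MulAut.conj g).toMonoidHom ∈ F)
    (hcount : ∀ H : ℕ → Subgroup G, (∀ n, H n ∈ F) → ⨅ n, H n ∈ F)
    (hK : ∀ q : ℕ, q.Prime → K F (cyc q)) : ∃ L ∈ F, ∀ H ∈ F, L ≤ H := by
  classical
  have htop : (⊤ : Subgroup G) ∈ F := by
    obtain ⟨H, hH⟩ := hne
    exact hup H hH ⊤ le_top
  -- the digraph
  have main : ∀ q : ℕ, q.Prime → ∃ H ∈ F, ∀ K₁ ∈ F, ∀ h ∈ Subgroup.normalizer (K₁ : Set G), (∀ m : ℤ, h ^ m ∈ K₁ → (q : ℤ) ∣ m) →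
      h ∉ H := by
    intro q hq
    have hqF : Fact q.Prime := ⟨hq⟩
    let I : Type u := {k : Subgroup G × G // k.1 ∈ F ∧ k.2 ∈ Subgroup.normalizer (k.1 : Set G) ∧ ∀ m : ℤ, k.2 ^ m ∈ k.1 → (q : ℤ) ∣ m}
    let X : Type u := Σ k : I, G ⧸ k.1.1
    have hsm : ∀ (g : G) (k : I) (x : G), g • (⟨k, (x : G ⧸ k.1.1)⟩ : X) = ⟨k, ((g * x : G) : G ⧸ k.1.1)⟩ :=
      fun g k x => rfl
    have hrep : ∀ x : X, ∃ g : G, x = ⟨x.1, (g : G ⧸ x.1.1.1)⟩ := by
      rintro ⟨k, x⟩
      obtain ⟨g, rfl⟩ := QuotientGroup.mk_surjective x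
      exact ⟨g, rfl⟩
    let RX : ∀ i : Unit, Set (Fin ((fun _ : Unit => 2) i) → X) := fun _ =>
      {t | ∃ (k : I) (g : G), t 0 = ⟨k, (g : G ⧸ k.1.1)⟩ ∧ t 1 = ⟨k, ((g * k.1.2 : G) : G ⧸ k.1.1)⟩}
    have hcol : ∀ k : I, ∃ c : G → ZMod q, (∀ g, ∀ k' ∈ k.1.1, c (g * k') = c g) ∧ ∀ g, c (g * k.1.2) = c g + 1 :=
      fun k => exists_coloring k.1.1 k.1.2 k.2.2.1 q k.2.2.2
    choose c hc1 hc2 using hcol
    have hA : ∀ x : X, MulAction.stabilizer G x ∈ F := by
      intro x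
      obtain ⟨g, hg⟩ := hrep x
      refine hup _ (hconj _ x.1.2.1 g) _ ?_
      rintro _ ⟨y, hy, rfl⟩
      rw [MulAction.mem_stabilizer_iff, hg, hsm]
      have : ((MulAut.conj g).toMonoidHom y * g : G) = g * y := by
        have h1 : (MulAut.conj g).toMonoidHom y = g * y * g⁻¹ := rfl
        rw [h1]
        group
      rw [this, QuotientGroup.mk_mul_of_mem g hy]
    have hB : ∀ (g : G) (i : Unit), ∀ t ∈ RX i, (fun a => g • t a) ∈ RX i := by
      rintro g ⟨⟩ t ⟨k, x, h0, h1⟩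
      refine ⟨k, g * x, ?_, ?_⟩
      · show g • t 0 = _
        rw [h0, hsm]
      · show g • t 1 = _
        rw [h1, hsm, mul_assoc]
    have hC : ∀ S : Finset X, ∃ f : X → ZMod q, ∀ (i : Unit), ∀ t ∈ RX i, (∀ a, t a ∈ S) →
        (fun a => f (t a)) ∈ cyc q i := by
      intro S
      refine ⟨fun x => c x.1 (Quotient.out x.2), ?_⟩
      rintro ⟨⟩ t ⟨k, x, h0, h1⟩ -
      show c (t 1).1 (Quotient.out (t 1).2) = c (t 0).1 (Quotient.out (t 0).2) + 1
      rw [h0, h1]
      obtain ⟨y, hy⟩ := QuotientGroup.mk_out_eq_mul k.1.1 x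
      obtain ⟨y', hy'⟩ := QuotientGroup.mk_out_eq_mul k.1.1 (x * k.1.2)
      show c k (Quotient.out ((x * k.1.2 : G) : G ⧸ k.1.1)) = c k (Quotient.out (x : G ⧸ k.1.1)) + 1
      rw [hy, hy', hc1 k _ _ y.2, hc1 k _ _ y'.2, hc2]
    obtain ⟨H, hH, f, hf, hinv⟩ := hK q hq X RX hA hB hC
    refine ⟨H, hH, fun K₁ hK₁ h hh hm hhH => ?_⟩
    let k : I := ⟨(K₁, h), hK₁, hh, hm⟩
    have h1 := hinv h hhH (⟨k, ((1 : G) : G ⧸ k.1.1)⟩ : X)
    rw [hsm, mul_one] at h1
    have h2 := hf () ![(⟨k, ((1 : G) : G ⧸ k.1.1)⟩ : X), ⟨k, ((1 * h : G) : G ⧸ k.1.1)⟩] ⟨k, 1, rfl, rfl⟩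
    have h3 : f ⟨k, ((1 * h : G) : G ⧸ k.1.1)⟩ = f ⟨k, ((1 : G) : G ⧸ k.1.1)⟩ + 1 := h2
    rw [one_mul, h1] at h3
    exact one_ne_zero (left_eq_add.1 h3)
  choose! H hHF hH using main
  obtain ⟨H', hH'⟩ : ∃ H' : ℕ → Subgroup G, H' = fun q => if q.Prime then H q else ⊤ := ⟨_, rfl⟩
  refine ⟨⨅ q, H' q, hcount _ fun q => ?_, fun K₀ hK₀ h hh => ?_⟩
  · rw [hH']
    show (if q.Prime then H q else ⊤) ∈ F
    split_ifs with hq
    · exact hHF q hq
    · exact htop
  by_contra hhK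
  -- the intersection of the conjugates of `K₀` by the powers of `h`
  obtain ⟨K₁, hK₁⟩ : ∃ K₁ : Subgroup G, K₁ = ⨅ m : ℤ, K₀.map (MulAut.conj (h ^ m)).toMonoidHom := ⟨_, rfl⟩
  have hK₁F : K₁ ∈ F := by
    rw [hK₁, ← Equiv.iInf_comp (Denumerable.eqv ℤ).symm]
    exact hcount _ fun n => hconj K₀ hK₀ _
  have hmem : ∀ x, x ∈ K₁ ↔ ∀ m : ℤ, (h ^ m)⁻¹ * x * h ^ m ∈ K₀ := by
    intro x
    rw [hK₁, Subgroup.mem_iInf]
    refine forall_congr' fun m => ?_
    rw [Subgroup.mem_map]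
    constructor
    · rintro ⟨y, hy, rfl⟩
      have h1 : (MulAut.conj (h ^ m)).toMonoidHom y = h ^ m * y * (h ^ m)⁻¹ := rfl
      have h2 : (h ^ m)⁻¹ * (h ^ m * y * (h ^ m)⁻¹) * h ^ m = y := by group
      rwa [h1, h2]
    · intro hx
      refine ⟨_, hx, ?_⟩
      have h1 : (MulAut.conj (h ^ m)).toMonoidHom ((h ^ m)⁻¹ * x * h ^ m) =
          h ^ m * ((h ^ m)⁻¹ * x * h ^ m) * (h ^ m)⁻¹ := rfl
      rw [h1]
      group
  have hnorm : h ∈ Subgroup.normalizer (K₁ : Set G) := by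
    rw [Subgroup.mem_normalizer_iff]
    intro x
    rw [hmem, hmem]
    constructor
    · intro hx m
      have h1 := hx (m - 1)
      have h2 : (h ^ m)⁻¹ * (h * x * h⁻¹) * h ^ m = (h ^ (m - 1))⁻¹ * x * h ^ (m - 1) := by
        rw [zpow_sub_one]
        group
      rwa [h2]
    · intro hx m
      have h1 := hx (m + 1)
      have h2 : (h ^ (m + 1))⁻¹ * (h * x * h⁻¹) * h ^ (m + 1) = (h ^ m)⁻¹ * x * h ^ m := by
        rw [zpow_add_one]
        group
      rwa [h2] at h1
  have hhK₁ : h ∉ K₁ := by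
    intro h1
    have h2 := (hmem h).1 h1 0
    rw [zpow_zero, inv_one, one_mul, mul_one] at h2
    exact hhK h2
  -- the order of `h` modulo `K₁`
  obtain ⟨q, hq, hqm⟩ : ∃ q : ℕ, q.Prime ∧ ∀ m : ℤ, h ^ m ∈ K₁ → (q : ℤ) ∣ m := by
    let S : AddSubgroup ℤ :=
      { carrier := {m | h ^ m ∈ K₁}
        zero_mem' := by
          show h ^ (0 : ℤ) ∈ K₁
          rw [zpow_zero]
          exact K₁.one_mem
        add_mem' := by
          intro a b ha hb
          show h ^ (a + b) ∈ K₁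
          rw [zpow_add]
          exact K₁.mul_mem ha hb
        neg_mem' := by
          intro a ha
          show h ^ (-a) ∈ K₁
          rw [zpow_neg]
          exact K₁.inv_mem ha }
    obtain ⟨a, ha⟩ := Int.subgroup_cyclic S
    have ha1 : a.natAbs ≠ 1 := by
      intro h1
      have h2 : (1 : ℤ) ∈ S := by
        rw [ha, AddSubgroup.mem_closure_singleton]
        rcases Int.natAbs_eq a with h3 | h3
        · exact ⟨1, by rw [h3, h1]; simp⟩
        · exact ⟨-1, by rw [h3, h1]; simp⟩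
      have h3 : h ^ (1 : ℤ) ∈ K₁ := h2
      rw [zpow_one] at h3
      exact hhK₁ h3
    obtain ⟨q, hq, hqa⟩ := Nat.exists_prime_and_dvd ha1
    refine ⟨q, hq, fun m hm => ?_⟩
    have h1 : m ∈ S := hm
    rw [ha, AddSubgroup.mem_closure_singleton] at h1
    obtain ⟨n, rfl⟩ := h1
    have h2 : (q : ℤ) ∣ a := Int.natCast_dvd.2 hqa
    rw [smul_eq_mul]
    exact h2.mul_left n
  refine hH q hq K₁ hK₁F h hnorm hqm ?_
  rw [Subgroup.mem_iInf] at hh
  have h1 := hh q
  rw [hH'] at h1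
  simpa [hq] using h1

/-- In every permutation model given by a normal filter closed under countable intersections, `K_D` fails for the
directed cycle of some prime length, or the filter has a least element and `K_D` holds for every finite `D`. -/
theorem result {G : Type u} [Group G] (F : Set (Subgroup G)) (hne : F.Nonempty)
    (hup : ∀ H ∈ F, ∀ L : Subgroup G, H ≤ L → L ∈ F)
    (hconj : ∀ H ∈ F, ∀ g : G, H.map (MulAut.conj g).toMonoidHom ∈ F)
    (hcount : ∀ H : ℕ → Subgroup G, (∀ n, H n ∈ F) → ⨅ n, H n ∈ F) :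
    (∃ q : ℕ, q.Prime ∧ Star (cyc q) ∧ ¬ K F (cyc q)) ∨
      ((∃ L ∈ F, ∀ H ∈ F, L ≤ H) ∧
        (∀ (ι : Type) (ar : ι → ℕ) (D : Type) (_ : Finite D) (RD : ∀ i, Set (Fin (ar i) → D)), K F RD) ∧
        ¬ Star K3) := by
  by_cases hK : ∀ q : ℕ, q.Prime → K F (cyc q)
  · obtain ⟨L, hL, hLe⟩ := exists_least F hne hup hconj hcount hK
    refine Or.inr ⟨⟨L, hL, hLe⟩, ?_, not_star_K3⟩
    intro ι ar D hD RD X _ RX hst _ hfin
    obtain ⟨f, hf, -⟩ := exists_hom RD RX hfin (κ := Empty) (fun _ => Set.univ) (fun k => k.elim)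
      (fun _ f hf => ⟨f, hf, fun k => k.elim⟩)
    refine ⟨L, hL, f, hf, fun h hh x => ?_⟩
    have h1 : h ∈ MulAction.stabilizer G x := hLe _ (hst x) hh
    rw [MulAction.mem_stabilizer_iff.1 h1]
  · push Not at hK
    obtain ⟨q, hq, hKq⟩ := hK
    exact Or.inl ⟨q, hq, star_cyc hq, hKq⟩

end Pool.Agent.Results.MP_8b375f_lc.CompleteModels
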