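import Pool.Agent.KD.Basic

/-!
# Permutation models of ZFA + DC in which `K_D` holds exactly for the templates with a cyclic polymorphism of arity `p`

Let `p` be a prime and `I` an uncountable set.  The group `(ℤ / p) ^ I` with the filter of countable supports gives a
permutation model of ZFA + DC.  For every finite template `D`, `K_D` holds in it if and only if `D` has a cyclic
polymorphism of arity `p`.
-/

set_option autoImplicit false

namespace Pool.Agent.Results.MP_8b375f_lc.CyclicArity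

open Pool.Agent.KD

universe u

theorem pow_finRotate {G : Type u} [Group G] {n : ℕ} (g : G) (hg : g ^ (n + 1) = 1) (j : Fin (n + 1)) :
    g ^ ((finRotate (n + 1) j : Fin (n + 1)) : ℕ) = g ^ ((j : ℕ) + 1) := by
  rw [finRotate_apply, Fin.val_add_one]
  split_ifs with h
  · rw [h, pow_zero, Fin.val_last, hg]
  · rfl

theorem of_cyclic {G : Type u} [CommGroup G] {n : ℕ} (hexp : ∀ g : G, g ^ (n + 1) = 1) (F : Set (Subgroup G))
    (htop : ⊤ ∈ F) {ι : Type} {ar : ι → ℕ} {D : Type} [Finite D] (RD : ∀ i, Set (Fin (ar i) → D))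
    (hD : Cyclic (n + 1) RD) : K F RD := by
  classical
  intro X _ RX hst hinv hfin
  obtain ⟨φ, hφ, hφc⟩ := hD
  have hav : ∀ (T : Finset G) (f : X → D), (∀ (i : ι), ∀ t ∈ RX i, (fun a => f (t a)) ∈ RD i) →
      ∃ f' : X → D, (∀ (i : ι), ∀ t ∈ RX i, (fun a => f' (t a)) ∈ RD i) ∧ ∀ g ∈ T, ∀ x, f' (g • x) = f' x := by
    intro T
    induction T using Finset.induction_on with
    | empty => exact fun f hf => ⟨f, hf, fun g hg => absurd hg (Finset.notMem_empty g)⟩
    | insert g T _ ih =>
      intro f hf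
      obtain ⟨f₁, hf₁, hT⟩ := ih f hf
      refine ⟨fun x => φ (fun j => f₁ (g ^ (j : ℕ) • x)), ?_, ?_⟩
      · intro i t ht
        exact hφ i (fun j a => f₁ (g ^ (j : ℕ) • t a)) fun j => hf₁ i _ (hinv (g ^ (j : ℕ)) i t ht)
      · intro g' hg' x
        rcases Finset.mem_insert.1 hg' with rfl | hg'
        · show φ (fun j => f₁ (g' ^ (j : ℕ) • g' • x)) = φ (fun j => f₁ (g' ^ (j : ℕ) • x))
          rw [← hφc (fun j => f₁ (g' ^ (j : ℕ) • x))]
          congr 1
          funext j
          rw [pow_finRotate g' (hexp g') j, pow_succ, mul_smul]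
        · show φ (fun j => f₁ (g ^ (j : ℕ) • g' • x)) = φ (fun j => f₁ (g ^ (j : ℕ) • x))
          congr 1
          funext j
          rw [← mul_smul, mul_comm, mul_smul, hT g' hg']
  have h1 : ∀ k : G × X, ∃ S : Finset X, ∀ f f' : X → D, (∀ x ∈ S, f x = f' x) →
      f ∈ {f : X → D | f (k.1 • k.2) = f k.2} → f' ∈ {f : X → D | f (k.1 • k.2) = f k.2} := by
    rintro ⟨g, x⟩
    refine ⟨{g • x, x}, fun f f' h hf => ?_⟩
    have h1 := h (g • x) (by simp)
    have h2 := h x (by simp)
    show f' (g • x) = f' x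
    rw [← h1, ← h2]
    exact hf
  obtain ⟨f, hf, hC⟩ := exists_hom RD RX hfin (κ := G × X) (fun k => {f | f (k.1 • k.2) = f k.2}) h1
    (fun T f hf => by
      obtain ⟨f', hf', hT⟩ := hav (T.image Prod.fst) f hf
      exact ⟨f', hf', fun k hk => hT k.1 (Finset.mem_image_of_mem _ hk) k.2⟩)
  exact ⟨⊤, htop, f, hf, fun h _ x => hC (h, x)⟩

/-- The set `I × D ^ (ℤ / p)` with the action of `(ℤ / p) ^ I` by translations. -/
@[reducible] def act (m : ℕ) (I : Type u) (D : Type) : MulAction (I → Multiplicative (ZMod m)) (I × (ZMod m → D)) where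
  smul g z := (z.1, fun a => z.2 (a + Multiplicative.toAdd (g z.1)))
  one_smul := by
    rintro ⟨i, x⟩
    show ((i, fun a => x (a + Multiplicative.toAdd (1 : Multiplicative (ZMod m)))) : I × (ZMod m → D)) = (i, x)
    simp
  mul_smul := by
    rintro g g' ⟨i, x⟩
    show ((i, fun a => x (a + Multiplicative.toAdd (g i * g' i))) : I × (ZMod m → D)) =
      (i, fun a => x (a + Multiplicative.toAdd (g i) + Multiplicative.toAdd (g' i)))
    simp only [toAdd_mul, add_assoc]

theorem to_cyclic {n : ℕ} {I : Type u} (hI : Uncountable I) {ι : Type} {ar : ι → ℕ} {D : Type}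
    (RD : ∀ i, Set (Fin (ar i) → D))
    (hK : K {H : Subgroup (I → Multiplicative (ZMod (n + 1))) |
      ∃ E : Set I, E.Countable ∧ ∀ g, (∀ i ∈ E, g i = 1) → g ∈ H} RD) : Cyclic (n + 1) RD := by
  classical
  let _ : MulAction (I → Multiplicative (ZMod (n + 1))) (I × (ZMod (n + 1) → D)) := act (n + 1) I D
  have hsm : ∀ (g : I → Multiplicative (ZMod (n + 1))) (i : I) (x : ZMod (n + 1) → D),
      g • ((i, x) : I × (ZMod (n + 1) → D)) = (i, fun a => x (a + Multiplicative.toAdd (g i))) := fun _ _ _ => rfl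
  let RX : ∀ r, Set (Fin (ar r) → I × (ZMod (n + 1) → D)) := fun r =>
    {t | ∃ (i : I) (y : Fin (ar r) → ZMod (n + 1) → D), (∀ a, t a = (i, y a)) ∧ ∀ b, (fun a => y a b) ∈ RD r}
  have hA : ∀ z : I × (ZMod (n + 1) → D), MulAction.stabilizer (I → Multiplicative (ZMod (n + 1))) z ∈
      {H : Subgroup (I → Multiplicative (ZMod (n + 1))) |
        ∃ E : Set I, E.Countable ∧ ∀ g, (∀ i ∈ E, g i = 1) → g ∈ H} := by
    rintro ⟨i, x⟩
    refine ⟨{i}, Set.countable_singleton i, fun g hg => ?_⟩
    rw [MulAction.mem_stabilizer_iff, hsm, hg i rfl]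
    simp
  have hB : ∀ (g : I → Multiplicative (ZMod (n + 1))) (r : ι), ∀ t ∈ RX r, (fun a => g • t a) ∈ RX r := by
    rintro g r t ⟨i, y, h1, h2⟩
    refine ⟨i, fun a b => y a (b + Multiplicative.toAdd (g i)), fun a => ?_, fun b => h2 _⟩
    show g • t a = _
    rw [h1, hsm]
  obtain ⟨H, ⟨E, hE, hH⟩, f, hf, hinv⟩ := hK _ RX hA hB
    (fun S => ⟨fun z => z.2 0, by
      rintro r t ⟨i, y, h1, h2⟩ -
      have e : (fun a => (t a).2 0) = fun a => y a 0 := by
        funext a
        rw [h1]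
      show (fun a => (t a).2 0) ∈ RD r
      rw [e]
      exact h2 0⟩)
  obtain ⟨i, hi⟩ : ∃ i, i ∉ E := by
    by_contra hcon
    push Not at hcon
    have h1 : E = Set.univ := Set.eq_univ_of_forall hcon
    rw [h1, Set.countable_univ_iff] at hE
    exact (not_countable_iff.2 hI) hE
  refine ⟨fun x => f (i, (x : ZMod (n + 1) → D)), ?_, ?_⟩
  · intro r t ht
    exact hf r (fun a => (i, fun b : ZMod (n + 1) => t b a)) ⟨i, fun a b => t b a, fun a => rfl, fun b => ht b⟩
  · intro x
    have h1 := hinv (Pi.mulSingle i (Multiplicative.ofAdd 1)) (hH _ fun j hj => by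
      rw [Pi.mulSingle_eq_of_ne]
      rintro rfl
      exact hi hj) (i, (x : ZMod (n + 1) → D))
    rw [hsm, Pi.mulSingle_eq_same] at h1
    have h2 : (fun j : Fin (n + 1) => x (finRotate (n + 1) j)) = fun j : Fin (n + 1) => x (j + 1) := by
      funext j
      rw [finRotate_apply]
    show f (i, fun j : Fin (n + 1) => x (finRotate (n + 1) j)) = f (i, x)
    rw [h2]
    exact h1

/-- Let `p` be a prime, `I` an uncountable set and `G = (ℤ / p) ^ I` with the filter of the subgroups that contain the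
pointwise stabilizer of a countable subset of `I`.  For every finite template `D`, `K_D` holds in this permutation
model if and only if `D` has a cyclic polymorphism of arity `p`. -/
theorem result (p : ℕ) (hp : p.Prime) (I : Type u) (hI : Uncountable I) (ι : Type) (ar : ι → ℕ) (D : Type)
    (hD : Finite D) (RD : ∀ i, Set (Fin (ar i) → D)) :
    K {H : Subgroup (I → Multiplicative (ZMod p)) |
      ∃ E : Set I, E.Countable ∧ ∀ g, (∀ i ∈ E, g i = 1) → g ∈ H} RD ↔ Cyclic p RD := by
  obtain ⟨n, rfl⟩ : ∃ n, p = n + 1 := ⟨p - 1, by have := hp.pos; omega⟩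
  refine ⟨to_cyclic hI RD, fun h => ?_⟩
  have htop : (⊤ : Subgroup (I → Multiplicative (ZMod (n + 1)))) ∈
      {H : Subgroup (I → Multiplicative (ZMod (n + 1))) |
        ∃ E : Set I, E.Countable ∧ ∀ g, (∀ i ∈ E, g i = 1) → g ∈ H} :=
    ⟨∅, Set.countable_empty, fun g _ => Subgroup.mem_top g⟩
  refine of_cyclic (fun g => ?_) _ htop RD h
  funext i
  rw [Pi.pow_apply, Pi.one_apply, ← ofAdd_toAdd (g i), ← ofAdd_nsmul]
  simp

end Pool.Agent.Results.MP_8b375f_lc.CyclicArity
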